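import Pool.Agent.Helper3.MB.R12
import Pool.Agent.Helper17.MB.A

/-!
# The sharp volume product inequality in dimension three, from the bound of the section body
-/

set_option autoImplicit false

open MeasureTheory Set Multiset Module
open scoped Pointwise NNReal ENNReal

noncomputable section

namespace Pool.Agent.Helper3.MB

open Pool.Agent.TH650.MV Pool.Agent.Helper2.Mah Pool.Agent.Helper2.M3
open W679AM H712MA Helper73.Twin

/-- the statement of part I -/
def SI : Prop := ∀ {K : Set (Fin 3 → ℝ)} (_ : OBody K) (KB : ConvexBody (Fin 3 → ℝ))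
    (_ : (KB : Set (Fin 3 → ℝ)) = K) {v : ℝ}
    (_ : T volume KB KB ((-1 : ℝ) • KB) = v * vl volume KB),
    volume (sec K) ≤ ENNReal.ofReal (3 / (2 * (1 + v))) * volume K

/-- the one-body inequality `|twin K| |sec K| ≤ (3 / 2) |K| ^ 2` -/
theorem one_body (hI : SI) {K : Set (Fin 3 → ℝ)} (h : OBody K) :
    volume (twin K) * volume (sec K) ≤ ENNReal.ofReal (3 / 2) * volume K ^ 2 := by
  have hne : K.Nonempty := ⟨0, GAaux.zmem h⟩
  set KB : ConvexBody (Fin 3 → ℝ) := ⟨K, h.conv, h.comp, hne⟩ with hKB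
  have hKB' : (KB : Set (Fin 3 → ℝ)) = K := rfl
  have hpos : 0 < vl volume KB := by
    unfold vl
    rw [hKB']
    refine ENNReal.toReal_pos ?_ h.comp.measure_lt_top.ne
    exact (Measure.measure_pos_of_nonempty_interior volume ⟨0, h.zero⟩).ne'
  set v : ℝ := T volume KB KB ((-1 : ℝ) • KB) / vl volume KB with hv
  have hT : T volume KB KB ((-1 : ℝ) • KB) = v * vl volume KB := by
    rw [hv, div_mul_cancel₀ _ hpos.ne']
  have hv0 : 0 ≤ v := by
    have h3 : finrank ℝ (Fin 3 → ℝ) = 3 := by simp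
    exact div_nonneg (T_nonneg volume h3 _ _ _) hpos.le
  have hA := Pool.Agent.Helper17.MB.A h.comp h.conv ⟨0, h.zero⟩ KB hKB' hT
  have hI' := hI h KB hKB' hT
  rw [hA]
  calc ENNReal.ofReal (1 + v) * volume K * volume (sec K)
      ≤ ENNReal.ofReal (1 + v) * volume K *
        (ENNReal.ofReal (3 / (2 * (1 + v))) * volume K) := mul_le_mul_right hI' _
    _ = ENNReal.ofReal (1 + v) * ENNReal.ofReal (3 / (2 * (1 + v))) * volume K ^ 2 := by ring
    _ = ENNReal.ofReal (3 / 2) * volume K ^ 2 := by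
        rw [← ENNReal.ofReal_mul (by linarith)]
        congr 2
        field_simp

/-- R3 (the volume product), from I and the symmetric Mahler inequality -/
theorem R3_of (hI : SI) {K : Set (Fin 3 → ℝ)} (h : OBody K) :
    ENNReal.ofReal (64 / 9) ≤ volume K * volume (GB.plr K) := by
  have key : ∀ {L : Set (Fin 3 → ℝ)}, OBody L →
      ENNReal.ofReal (32 / 3) ≤ volume (twin L) * volume (sec (GB.plr L)) := by
    intro L hL
    have h1 := GB.coord sZ (twin_sbody hL.comp hL.conv ⟨0, hL.zero⟩)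
    have h2 : ENNReal.ofReal ((4 : ℝ) ^ (3 + 1) / ((3 + 1).factorial : ℝ)) =
        ENNReal.ofReal (32 / 3) := by
      congr 1
      norm_num [Nat.factorial]
    rw [h2] at h1
    exact h1.trans (mul_le_mul_right (measure_mono (R1 hL)) _)
  obtain ⟨hP, hPP⟩ := R2 h
  have k1 := key h
  have k2 := key hP
  rw [hPP] at k2
  have o1 := one_body hI h
  have o2 := one_body hI hP
  have f1 : volume K ≠ ⊤ := h.comp.measure_lt_top.ne
  have f2 : volume (GB.plr K) ≠ ⊤ := hP.comp.measure_lt_top.ne
  have hmul : ENNReal.ofReal (32 / 3) * ENNReal.ofReal (32 / 3) ≤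
      ENNReal.ofReal (3 / 2) * ENNReal.ofReal (3 / 2) * (volume K * volume (GB.plr K)) ^ 2 := by
    calc ENNReal.ofReal (32 / 3) * ENNReal.ofReal (32 / 3)
        ≤ (volume (twin K) * volume (sec (GB.plr K))) *
          (volume (twin (GB.plr K)) * volume (sec K)) := mul_le_mul' k1 k2
      _ = (volume (twin K) * volume (sec K)) *
          (volume (twin (GB.plr K)) * volume (sec (GB.plr K))) := by ring
      _ ≤ (ENNReal.ofReal (3 / 2) * volume K ^ 2) *
          (ENNReal.ofReal (3 / 2) * volume (GB.plr K) ^ 2) := mul_le_mul' o1 o2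
      _ = _ := by ring
  rw [ENNReal.ofReal_le_iff_le_toReal (ENNReal.mul_ne_top f1 f2)]
  rw [← ENNReal.ofReal_mul (by norm_num), ← ENNReal.ofReal_mul (by norm_num)] at hmul
  have h3 := ENNReal.toReal_mono (ENNReal.mul_ne_top ENNReal.ofReal_ne_top
    (ENNReal.pow_ne_top (ENNReal.mul_ne_top f1 f2))) hmul
  rw [ENNReal.toReal_mul, ENNReal.toReal_pow, ENNReal.toReal_ofReal (by norm_num),
    ENNReal.toReal_ofReal (by norm_num)] at h3
  set X : ℝ := (volume K * volume (GB.plr K)).toReal with hX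
  have hX0 : 0 ≤ X := ENNReal.toReal_nonneg
  nlinarith

end Pool.Agent.Helper3.MB
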