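import Pool.Agent.Helper2.M3.Defs
import Mathlib.Analysis.Convex.Radon

/-!
# Minkowski's bound for the asymmetry of a convex body
-/

set_option autoImplicit false
set_option linter.unusedSectionVars false

open MeasureTheory Set Multiset Module
open scoped Pointwise NNReal ENNReal

noncomputable section

namespace Pool.Agent.Helper3.MB

open Pool.Agent.TH650.MV Pool.Agent.Helper2.Mah Pool.Agent.Helper2.M3
open W679AM H712MA Helper73.Twin

lemma sum_mem_smul {E ι : Type*} [AddCommGroup E] [Module ℝ E] {K : Set E} (hK : Convex ℝ K)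
    (hne : K.Nonempty) (I : Finset ι) (y : ι → E) (hy : ∀ i ∈ I, y i ∈ K) :
    ∑ i ∈ I, y i ∈ (I.card : ℝ) • K := by
  classical
  induction I using Finset.induction_on with
  | empty =>
    obtain ⟨k, hk⟩ := hne
    exact ⟨k, hk, by simp⟩
  | insert a I ha ih =>
    rw [Finset.sum_insert ha, Finset.card_insert_of_notMem ha]
    push_cast
    rw [add_comm (I.card : ℝ) 1, hK.add_smul zero_le_one (Nat.cast_nonneg _), one_smul]
    exact Set.add_mem_add (hy a (Finset.mem_insert_self a I))
      (ih fun i hi => hy i (Finset.mem_insert_of_mem hi))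

section general

variable {G : Type*} [NormedAddCommGroup G] [NormedSpace ℝ G] [FiniteDimensional ℝ G]
  [MeasurableSpace G] [BorelSpace G] (μ : Measure G) [μ.IsAddHaarMeasure]

/-- X4 (Minkowski: the asymmetry is at most `n`) -/
theorem X4 (K : ConvexBody G) : ∃ x : G,
    (-1 : ℝ) • K ≤ (finrank ℝ G : ℝ≥0) • K + sing x := by
  classical
  set n : ℕ := finrank ℝ G with hn
  have hne : (K : Set G).Nonempty := K.nonempty
  set F : ↥(K : Set G) → Set G := fun y => (fun z => -(y : G) - z) '' ((n : ℝ) • (K : Set G)) with hF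
  have hconv : ∀ y, Convex ℝ (F y) := by
    intro y
    have h1 : Convex ℝ ((n : ℝ) • (K : Set G)) := K.convex.smul _
    rintro _ ⟨a, ha, rfl⟩ _ ⟨b, hb, rfl⟩ s t hs ht hst
    refine ⟨s • a + t • b, h1 ha hb hs ht hst, ?_⟩
    show -(y : G) - (s • a + t • b) = s • (-(y : G) - a) + t • (-(y : G) - b)
    have : -(y : G) = s • (-(y : G)) + t • (-(y : G)) := by rw [← add_smul, hst, one_smul]
    rw [smul_sub, smul_sub]
    nth_rewrite 1 [this]
    abel
  have hcomp : ∀ y, IsCompact (F y) := by
    intro y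
    exact (K.isCompact.smul _).image (by fun_prop)
  obtain ⟨x, hx⟩ := Convex.helly_theorem_compact' (𝕜 := ℝ) hconv hcomp (by
    intro I hI
    rcases I.eq_empty_or_nonempty with h0 | ⟨y0, hy0⟩
    · subst h0
      simp
    · refine ⟨-(∑ i ∈ I, (i : G)) - ((n : ℝ) + 1 - I.card) • (y0 : G), ?_⟩
      simp only [mem_iInter]
      intro j hj
      refine ⟨∑ i ∈ I.erase j, (i : G) + ((n : ℝ) + 1 - I.card) • (y0 : G), ?_, ?_⟩
      · have h1 := sum_mem_smul K.convex hne (I.erase j) (fun i => (i : G)) fun i _ => i.2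
        have hc : (I.card : ℝ) ≤ n + 1 := by exact_mod_cast hI
        have h2 : ((n : ℝ) + 1 - I.card) • (y0 : G) ∈ ((n : ℝ) + 1 - I.card) • (K : Set G) :=
          Set.smul_mem_smul_set y0.2
        have h3 := Set.add_mem_add h1 h2
        rw [← K.convex.add_smul (Nat.cast_nonneg _) (by linarith)] at h3
        have h4 : ((I.erase j).card : ℝ) + ((n : ℝ) + 1 - I.card) = n := by
          have h5 := Finset.card_erase_add_one hj
          have h6 : ((I.erase j).card : ℝ) + 1 = I.card := by exact_mod_cast h5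
          linarith
        rwa [h4] at h3
      · show -(j : G) - (∑ i ∈ I.erase j, (i : G) + ((n : ℝ) + 1 - I.card) • (y0 : G)) = _
        rw [← Finset.add_sum_erase I (fun i => (i : G)) hj]
        abel)
  refine ⟨x, ?_⟩
  rw [mem_iInter] at hx
  intro z hz
  have hz' : z ∈ (-1 : ℝ) • (K : Set G) := hz
  obtain ⟨y, hy, rfl⟩ := hz'
  obtain ⟨w, hw, hwx⟩ := hx ⟨y, hy⟩
  have h1 : -y - w = x := hwx
  show (-1 : ℝ) • y ∈ (((n : ℝ≥0) • K + sing x : ConvexBody G) : Set G)
  rw [ConvexBody.coe_add, ConvexBody.coe_smul']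
  refine ⟨w, ?_, x, rfl, ?_⟩
  · obtain ⟨k, hk, rfl⟩ := hw
    exact ⟨k, hk, by simp⟩
  · show w + x = (-1 : ℝ) • y
    rw [← h1]
    simp

end general

end Pool.Agent.Helper3.MB
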