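import Pool.Agent.Helper2.M3.Defs

/-!
# The polar of the twin body, and the bipolar theorem
-/

set_option autoImplicit false

open MeasureTheory Set Multiset Module
open scoped Pointwise NNReal ENNReal

noncomputable section

namespace Pool.Agent.Helper3.MB

open Pool.Agent.TH650.MV Pool.Agent.Helper2.Mah Pool.Agent.Helper2.M3
open W679AM H712MA Helper73.Twin
open Matrix

lemma zero_plr {n : ℕ} (K : Set (Fin n → ℝ)) : (0 : Fin n → ℝ) ∈ GB.plr K := by
  intro x _
  simp

lemma mem_smul_plr {n : ℕ} {K : Set (Fin n → ℝ)} (h : OBody K) {c : ℝ} (hc : 0 ≤ c)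
    {z : Fin n → ℝ} (hz : ∀ x ∈ K, x ⬝ᵥ z ≤ c) : z ∈ c • GB.plr K := by
  rcases hc.eq_or_lt with h0 | h0
  · have hz0 : z = 0 := by
      by_contra hne
      have h1 := GAaux.hs_pos h hne
      have h2 : hs K z ≤ 0 := by
        refine csSup_le (Set.Nonempty.image _ ⟨0, GAaux.zmem h⟩) ?_
        rintro _ ⟨x, hx, rfl⟩
        show x ⬝ᵥ z ≤ 0
        rw [h0]
        exact hz x hx
      linarith
    rw [hz0]
    exact ⟨0, zero_plr K, by simp⟩
  · refine ⟨c⁻¹ • z, fun x hx => ?_, ?_⟩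
    · rw [dotProduct_smul, smul_eq_mul, inv_mul_le_iff₀ h0, mul_one]
      exact hz x hx
    · show c • (c⁻¹ • z) = z
      rw [smul_smul, mul_inv_cancel₀ h0.ne', one_smul]

/-- R1 (polar of the twin body), any dimension -/
theorem R1 {n : ℕ} {K : Set (Fin n → ℝ)} (h : OBody K) : GB.plr (twin K) ⊆ sec (GB.plr K) := by
  intro w hw
  have hz : (0 : Fin n → ℝ) ∈ K := GAaux.zmem h
  have h1 : ∀ x ∈ K, w 0 + x ⬝ᵥ (Fin.tail w : Fin n → ℝ) ≤ 1 := by
    intro x hx
    have h2 : (Fin.cons 1 x : Fin (n + 1) → ℝ) ∈ twin K :=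
      subset_convexHull ℝ _ (Or.inl ⟨x, hx, rfl⟩)
    have h3 := hw _ h2
    rw [← Fin.cons_self_tail w, cons_dot, one_mul] at h3
    simpa using h3
  have h2 : ∀ x ∈ K, -w 0 - x ⬝ᵥ (Fin.tail w : Fin n → ℝ) ≤ 1 := by
    intro x hx
    have h2 : (Fin.cons (-1) (-x) : Fin (n + 1) → ℝ) ∈ twin K :=
      subset_convexHull ℝ _ (Or.inr ⟨x, hx, rfl⟩)
    have h3 := hw _ h2
    rw [← Fin.cons_self_tail w, cons_dot, neg_dotProduct] at h3
    linarith
  have h3 := h1 0 hz
  have h4 := h2 0 hz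
  rw [zero_dotProduct] at h3 h4
  refine ⟨abs_le.2 ⟨by linarith, by linarith⟩, mem_smul_plr h (by linarith) fun x hx => ?_,
    mem_smul_plr h (by linarith) fun x hx => ?_⟩
  · linarith [h1 x hx]
  · rw [dotProduct_neg]
    linarith [h2 x hx]

/-- separation -/
lemma bipolarO {n : ℕ} {K : Set (Fin n → ℝ)} (h : OBody K) {x : Fin n → ℝ} (hx : x ∉ K) :
    ∃ y ∈ GB.plr K, 1 < y ⬝ᵥ x := by
  obtain ⟨f, u, hf1, hf2⟩ := geometric_hahn_banach_closed_point h.conv h.comp.isClosed hx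
  have hu : 0 < u := by simpa using hf1 0 (GAaux.zmem h)
  set w : Fin n → ℝ := fun i => f (Pi.single i 1) with hwd
  have hw : ∀ a : Fin n → ℝ, a ⬝ᵥ w = f a := by
    intro a
    have h1 := LinearMap.pi_apply_eq_sum_univ f.toLinearMap a
    simp only [ContinuousLinearMap.coe_coe] at h1
    rw [h1]
    unfold dotProduct
    refine Finset.sum_congr rfl fun i _ => ?_
    have h2 : (Pi.single i 1 : Fin n → ℝ) = fun j => if i = j then 1 else 0 := by
      funext j
      simp [Pi.single_apply, eq_comm]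
    simp only [hwd, smul_eq_mul]
    rw [h2]
  refine ⟨u⁻¹ • w, fun a ha => ?_, ?_⟩
  · rw [dotProduct_smul, hw, smul_eq_mul, inv_mul_le_iff₀ hu, mul_one]
    exact (hf1 a ha).le
  · rw [smul_dotProduct, dotProduct_comm, hw, smul_eq_mul, lt_inv_mul_iff₀ hu, mul_one]
    exact hf2

/-- R2: the polar body is again a body with the origin in the interior -/
theorem R2 {n : ℕ} {K : Set (Fin n → ℝ)} (h : OBody K) :
    OBody (GB.plr K) ∧ GB.plr (GB.plr K) = K := by
  refine ⟨⟨?_, ?_, ?_⟩, Subset.antisymm ?_ ?_⟩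
  · exact Metric.isCompact_of_isClosed_isBounded (GB.plr_closed K) (GAaux.plr_bddA h)
  · intro a ha b hb s t hs ht hst x hx
    rw [dotProduct_add, dotProduct_smul, dotProduct_smul, smul_eq_mul, smul_eq_mul]
    have h1 := mul_le_mul_of_nonneg_left (ha x hx) hs
    have h2 := mul_le_mul_of_nonneg_left (hb x hx) ht
    linarith
  · obtain ⟨M, hM⟩ := isBounded_iff_forall_norm_le.1 h.comp.isBounded
    have hM0 : 0 ≤ M := (norm_nonneg _).trans (hM 0 (GAaux.zmem h))
    rw [mem_interior_iff_mem_nhds]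
    refine Metric.mem_nhds_iff.2 ⟨1 / (n * M + 1), by positivity, fun y hy => ?_⟩
    rw [Metric.mem_ball, dist_zero_right, lt_div_iff₀ (by positivity)] at hy
    intro x hx
    have h1 : x ⬝ᵥ y ≤ ∑ _i : Fin n, M * ‖y‖ := by
      unfold dotProduct
      refine Finset.sum_le_sum fun i _ => ?_
      have h2 : |x i| ≤ M := (norm_le_pi_norm x i).trans (hM x hx)
      have h3 : |y i| ≤ ‖y‖ := norm_le_pi_norm y i
      calc x i * y i ≤ |x i * y i| := le_abs_self _
        _ = |x i| * |y i| := abs_mul _ _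
        _ ≤ M * ‖y‖ := mul_le_mul h2 h3 (abs_nonneg _) hM0
    rw [Finset.sum_const, Finset.card_univ, Fintype.card_fin, nsmul_eq_mul] at h1
    nlinarith [norm_nonneg y]
  · intro x hx
    by_contra hxK
    obtain ⟨y, hy, h1⟩ := bipolarO h hxK
    exact absurd (hx y hy) (not_le.2 h1)
  · intro x hx y hy
    rw [dotProduct_comm]
    exact hy x hx

end Pool.Agent.Helper3.MB
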